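import Pool.Agent.Work.MP_92c8f1_an.Sep.Unit
import Pool.Agent.Work.MP_92c8f1_an.Hedge.AmenC

set_option maxSynthPendingDepth 3

open Pool.Agent.Work.MP_92c8f1_an

universe u v

/-- Let `Ω` be a compact Hausdorff space all of whose finite-order derived sets are non-empty.
Then the commutative Banach algebra `C(Ω)` is amenable, and for every `n = m + 1 ≥ 3` there is a
symmetric, unit-linked, contractive Banach `C(Ω)`-bimodule `X`, separable if `Ω` is second
countable, with `Hⁿ(C(Ω), X) ≠ 0`. The interval `[0, 1]` is such a space. -/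
theorem Pool.Agent.Results.MP_92c8f1_an.SeparableUnital.result :
    (∀ (Ω : Type u) [TopologicalSpace Ω] [CompactSpace Ω] [T2Space Ω],
      (∀ r : ℕ, (derivedSet^[r] (Set.univ : Set Ω)).Nonempty) →
        IsAmenable.{u, v} C(Ω, ℂ) ∧ ∀ m : ℕ, 3 ≤ m + 1 →
          ∃ (X : Type u) (_ : NormedAddCommGroup X) (_ : NormedSpace ℂ X) (_ : CompleteSpace X)
            (M : Bimodule C(Ω, ℂ) X), M.IsSymmetric ∧ (∀ x, M.l 1 x = x) ∧
              (∀ a x, ‖M.l a x‖ ≤ ‖a‖ * ‖x‖) ∧
              (SecondCountableTopology Ω → TopologicalSpace.SeparableSpace X) ∧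
              ¬ M.SuccCohomologyVanishes m) ∧
    ∀ r : ℕ, (derivedSet^[r] (Set.univ : Set (Set.Icc (0 : ℝ) 1))).Nonempty := by
  refine ⟨fun Ω _ _ _ hΩ => ⟨Hedge.amenable_comm _, fun m hm => ?_⟩, fun r => ?_⟩
  · obtain ⟨k, rfl⟩ : ∃ k, m = k + 2 := ⟨m - 2, by omega⟩
    exact Sep.exists_module hΩ k
  · have h : derivedSet (Set.univ : Set (Set.Icc (0 : ℝ) 1)) = Set.univ :=
      (perfect_iff_eq_derivedSet.1 (perfectSpace_iff_forall_not_isolated.2
        fun _ => inferInstance).univ_perfect).symm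
    rw [Function.iterate_fixed h]
    exact Set.univ_nonempty
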